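import Pool.Agent.Helper44.LT.N7
import Pool.Agent.Helper44.LT.N8
import Pool.Agent.Helper44.LT.N9

/-!
PROJECT LT, BLOCK N, VERSION 1 (prime levels): `mem_Phi_sub`, `card_Phi`, `card_Psi`, `ineq_q`,
`subtori`. Typed by helper37, helper58, helper44 (frames and captain), helper32; the general theorem
on subspaces is the one of helper44, helper68, helper32, helper54, helper52, helper56, helper94.
-/

set_option autoImplicit false

namespace Pool.Agent.Helper32.LT

open Pool.Agent.Helper34.LT Finset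
open Pool.Agent.Helper44.LT (Un CMt Prm NCj)

/-- only `1` stabilises `s` (prime level) -/
def Prm1 (q : ℕ) (s : Finset ℕ) : Prop :=
  ∀ h, 1 ≤ h → h < q → (∀ u, 1 ≤ u → u < q → (u ∈ s ↔ (u * h) % q ∈ s)) → h = 1

/-- no multiple of `t` is `s` (prime level) -/
def NCj1 (q : ℕ) (s t : Finset ℕ) : Prop :=
  ∀ h, 1 ≤ h → h < q → ¬ ∀ u, 1 ≤ u → u < q → (u ∈ t ↔ (u * h) % q ∈ s)

theorem un_iff {q : ℕ} (hq : q.Prime) (u : ℕ) : Un q u ↔ 1 ≤ u ∧ u < q := by
  constructor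
  · rintro ⟨h1, h2, -⟩
    exact ⟨h1, h2⟩
  · rintro ⟨h1, h2⟩
    exact ⟨h1, h2, ((Nat.Prime.coprime_iff_not_dvd hq).2
      (Nat.not_dvd_of_pos_of_lt h1 h2)).symm⟩

private theorem n1_mem (q a b u : ℕ) (hq : q.Prime) :
    u ∈ Phi q a b ↔ (1 ≤ u ∧ u < q) ∧ q < (u * a) % q + (u * b) % q := by
  rw [Phi, mem_filter, mem_Icc]
  have h0 := hq.pos
  constructor
  · rintro ⟨⟨h1, h2⟩, h3⟩
    exact ⟨⟨h1, by omega⟩, h3⟩
  · rintro ⟨⟨h1, h2⟩, h3⟩
    exact ⟨⟨h1, by omega⟩, h3⟩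

private theorem n1_sub (q a u : ℕ) (hq : q.Prime) (ha : ¬ q ∣ a) (h1 : 1 ≤ u) (h2 : u < q) :
    0 < (u * a) % q ∧ (u * a) % q < q ∧ ((q - u) * a) % q + (u * a) % q = q := by
  have h0 := hq.pos
  have hA : 0 < (u * a) % q := by
    rw [Nat.pos_iff_ne_zero]
    intro h
    rcases (Nat.Prime.dvd_mul hq).1 (Nat.dvd_of_mod_eq_zero h) with h3 | h3
    · exact Nat.not_dvd_of_pos_of_lt h1 h2 h3
    · exact ha h3
  have hA2 : (u * a) % q < q := Nat.mod_lt _ h0
  have hX2 : ((q - u) * a) % q < q := Nat.mod_lt _ h0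
  refine ⟨hA, hA2, ?_⟩
  have h3 : (((q - u) * a) % q + (u * a) % q) % q = 0 := by
    rw [← Nat.add_mod, ← add_mul, Nat.sub_add_cancel h2.le, Nat.mul_mod_right]
  obtain ⟨c, hc⟩ := Nat.dvd_of_mod_eq_zero h3
  have hc1 : c < 2 := by
    by_contra h
    have : q * 2 ≤ q * c := Nat.mul_le_mul_left q (by omega)
    omega
  have hc0 : c ≠ 0 := by
    rintro rfl
    omega
  have : c = 1 := by omega
  rw [this, mul_one] at hc
  exact hc

theorem mem_Phi_sub (q a b : ℕ) (hq : q.Prime) (ha : ¬ q ∣ a) (hb : ¬ q ∣ b) (hab : ¬ q ∣ a + b)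
    (u : ℕ) (h1 : 1 ≤ u) (h2 : u < q) : u ∈ Phi q a b ↔ q - u ∉ Phi q a b := by
  rw [n1_mem q a b u hq, n1_mem q a b (q - u) hq]
  obtain ⟨a1, a2, a3⟩ := n1_sub q a u hq ha h1 h2
  obtain ⟨b1, b2, b3⟩ := n1_sub q b u hq hb h1 h2
  have h3 : (u * a) % q + (u * b) % q ≠ q := by
    intro h
    have h4 : (u * (a + b)) % q = 0 := by
      rw [mul_add, Nat.add_mod, h, Nat.mod_self]
    rcases (Nat.Prime.dvd_mul hq).1 (Nat.dvd_of_mod_eq_zero h4) with h5 | h5
    · exact Nat.not_dvd_of_pos_of_lt h1 h2 h5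
    · exact hab h5
  have h4 : (1 ≤ q - u ∧ q - u < q) := by omega
  have h5 : (1 ≤ u ∧ u < q) := ⟨h1, h2⟩
  simp only [h4, h5, true_and, and_self]
  omega

theorem card_Phi (q a b : ℕ) (hq : q.Prime) (hq3 : 3 ≤ q) (ha : ¬ q ∣ a) (hb : ¬ q ∣ b)
    (hab : ¬ q ∣ a + b) : (Phi q a b).card = (q - 1) / 2 := by
  have h1 : (Icc 1 (q - 1)).filter (fun u => u ∈ Phi q a b) = Phi q a b := by
    ext u
    rw [mem_filter, mem_Icc]
    constructor
    · exact fun h => h.2
    · intro h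
      have := ((n1_mem q a b u hq).1 h).1
      exact ⟨⟨this.1, by omega⟩, h⟩
  have h2 : ((Icc 1 (q - 1)).filter (fun u => u ∉ Phi q a b)).card = (Phi q a b).card := by
    refine Finset.card_bij' (fun u _ => q - u) (fun u _ => q - u) ?_ ?_ ?_ ?_
    · intro u hu
      rw [mem_filter, mem_Icc] at hu
      by_contra h
      exact hu.2 ((mem_Phi_sub q a b hq ha hb hab u hu.1.1 (by omega)).2 h)
    · intro u hu
      have h := ((n1_mem q a b u hq).1 hu).1
      rw [mem_filter, mem_Icc]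
      exact ⟨by omega, (mem_Phi_sub q a b hq ha hb hab u h.1 h.2).1 hu⟩
    · intro u hu
      rw [mem_filter, mem_Icc] at hu
      show q - (q - u) = u
      omega
    · intro u hu
      have h := ((n1_mem q a b u hq).1 hu).1
      show q - (q - u) = u
      omega
  have h3 := Finset.card_filter_add_card_filter_not (s := Icc 1 (q - 1))
    (fun u => u ∈ Phi q a b)
  rw [h1, h2, Nat.card_Icc] at h3
  omega

theorem mem11 (q : ℕ) (u : ℕ) : u ∈ Phi q 1 1 ↔ u < q ∧ q < 2 * u := by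
  rw [Phi, mem_filter, mem_Icc, mul_one]
  constructor
  · rintro ⟨⟨h1, h2⟩, h3⟩
    have h4 : u < q := by omega
    rw [Nat.mod_eq_of_lt h4] at h3
    exact ⟨h4, by omega⟩
  · rintro ⟨h2, h3⟩
    rw [Nat.mod_eq_of_lt h2]
    exact ⟨⟨by omega, by omega⟩, by omega⟩

private theorem n1_mod3 (q : ℕ) (hq : q.Prime) (h5 : 5 ≤ q) : q % 3 ≠ 0 ∧ q % 2 ≠ 0 := by
  constructor
  · intro h
    have h1 := (Nat.prime_dvd_prime_iff_eq Nat.prime_three hq).1 (Nat.dvd_of_mod_eq_zero h)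
    omega
  · intro h
    have h1 := (Nat.prime_dvd_prime_iff_eq Nat.prime_two hq).1 (Nat.dvd_of_mod_eq_zero h)
    omega

theorem mem13 (q : ℕ) (hq : q.Prime) (h5 : 5 ≤ q) (u : ℕ) :
    u ∈ Phi q 1 3 ↔ (q < 4 * u ∧ 3 * u < q) ∨ (q < 2 * u ∧ 3 * u < 2 * q) ∨
      (3 * q < 4 * u ∧ u < q) := by
  rw [n1_mem q 1 3 u hq, mul_one]
  obtain ⟨h3, _⟩ := n1_mod3 q hq h5
  by_cases hu : u < q
  · rw [Nat.mod_eq_of_lt hu]
    by_cases c1 : 3 * u < q
    · rw [Nat.mod_eq_of_lt (show u * 3 < q by omega)]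
      omega
    · by_cases c2 : 3 * u < 2 * q
      · have h4 : (u * 3) % q = 3 * u - q := by
          rw [Nat.mod_eq_sub_mod (by omega), Nat.mod_eq_of_lt (by omega)]
          omega
        rw [h4]
        omega
      · have h4 : (u * 3) % q = 3 * u - 2 * q := by
          rw [Nat.mod_eq_sub_mod (by omega), Nat.mod_eq_sub_mod (by omega),
            Nat.mod_eq_of_lt (by omega)]
          omega
        rw [h4]
        omega
  · constructor
    · rintro ⟨⟨_, h⟩, _⟩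
      exact absurd h hu
    · intro h
      omega

theorem card_Psi (q : ℕ) (hq : q.Prime) (h : 17 ≤ q) :
    (Psi q).card = (q - 1) / 2 + (q / 3 - q / 4) := by
  obtain ⟨h3, h2⟩ := n1_mod3 q hq (by omega)
  have h1 : Psi q = Phi q 1 1 ∪ Ioc (q / 4) (q / 3) := by
    ext u
    rw [Psi, mem_union, mem_union, mem11 q, mem13 q hq (by omega), mem_Ioc]
    omega
  have hd : Disjoint (Phi q 1 1) (Ioc (q / 4) (q / 3)) := by
    rw [Finset.disjoint_left]
    intro u hu hv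
    rw [mem11 q] at hu
    rw [mem_Ioc] at hv
    omega
  have h11 : ¬ q ∣ 1 := Nat.not_dvd_of_pos_of_lt (by omega) (by omega)
  have h12 : ¬ q ∣ 1 + 1 := Nat.not_dvd_of_pos_of_lt (by omega) (by omega)
  rw [h1, Finset.card_union_of_disjoint hd, card_Phi q 1 1 hq (by omega) h11 h11 h12,
    Nat.card_Ioc]

theorem ineq_q (q : ℕ) (hq : q.Prime) (h : 83 ≤ q) :
    5 * (q / 3 - q / 4) + 4 < (q - 1) / 2 := by
  obtain ⟨h3, h2⟩ := n1_mod3 q hq (by omega)
  omega

private theorem n2_rng (q a b : ℕ) (h5 : 5 ≤ q) : ∀ u ∈ Phi q a b, 1 ≤ u ∧ u < q := by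
  intro u hu
  rw [Phi, Finset.mem_filter, Finset.mem_Icc] at hu
  omega

private theorem n2_ndvd {q n : ℕ} (hn : 1 ≤ n) (h : n < q) : ¬ q ∣ n :=
  fun hd => absurd (Nat.le_of_dvd hn hd) (not_le.2 h)

theorem cmt11 (q : ℕ) (hq : q.Prime) (h : 5 ≤ q) : CMt q (Phi q 1 1) :=
  ⟨fun u hu => (un_iff hq u).2 (n2_rng q 1 1 h u hu), fun u hu => mem_Phi_sub q 1 1 hq (n2_ndvd le_rfl (by omega))
    (n2_ndvd le_rfl (by omega)) (n2_ndvd (by omega) (by omega)) u hu.1 hu.2.1⟩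

theorem cmt13 (q : ℕ) (hq : q.Prime) (h : 5 ≤ q) : CMt q (Phi q 1 3) :=
  ⟨fun u hu => (un_iff hq u).2 (n2_rng q 1 3 h u hu), fun u hu => mem_Phi_sub q 1 3 hq (n2_ndvd le_rfl (by omega))
    (n2_ndvd (by omega) (by omega)) (n2_ndvd (by omega) (by omega)) u hu.1 hu.2.1⟩

/-- the first multiple of `h` beyond `q / 2` -/
private theorem n2_mul {q h : ℕ} (c : ℕ) (hc : c ≤ h) (h1 : 1 ≤ c) (h2 : 2 * h < q) :
    ∃ k, 1 ≤ k ∧ 2 * c * k ≤ q + 2 * c ∧ k * h < q ∧ q < 2 * (k * h) := by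
  have h0 : 0 < 2 * h := by omega
  have h3 : 2 * h * (q / (2 * h)) ≤ q := Nat.mul_div_le q (2 * h)
  have h4 : q < 2 * h * (q / (2 * h) + 1) := Nat.lt_mul_div_succ q h0
  have h5 : 2 * c * (q / (2 * h)) ≤ 2 * h * (q / (2 * h)) :=
    Nat.mul_le_mul_right _ (Nat.mul_le_mul_left 2 hc)
  generalize q / (2 * h) = m at h3 h4 h5
  have h6 : 2 * ((m + 1) * h) = 2 * h * m + 2 * h := by ring
  have h7 : 2 * h * (m + 1) = 2 * h * m + 2 * h := by ring
  refine ⟨m + 1, by omega, ?_, by omega, by omega⟩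
  have h8 : 2 * c * (m + 1) = 2 * c * m + 2 * c := by ring
  omega

private theorem n2_odd {q : ℕ} (hq : q.Prime) (h41 : 41 ≤ q) : q % 2 = 1 :=
  Nat.odd_iff.1 (hq.odd_of_ne_two (by omega))

theorem prm11 (q : ℕ) (hq : q.Prime) (h41 : 41 ≤ q) : Prm1 q (Phi q 1 1) := by
  intro h h1 h2 H
  have hodd := n2_odd hq h41
  by_contra hne
  have e1 := H 1 le_rfl (by omega)
  rw [mem11, mem11, one_mul, Nat.mod_eq_of_lt h2] at e1
  have h3 : 2 * h < q := by
    by_contra hcon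
    have : 1 < q ∧ q < 2 * 1 := e1.2 ⟨h2, by omega⟩
    omega
  obtain ⟨k, k1, k2, k3, k4⟩ := n2_mul 2 (show 2 ≤ h by omega) (by omega) h3
  have e2 := H k k1 (by omega)
  rw [mem11, mem11, Nat.mod_eq_of_lt k3] at e2
  have := e2.2 ⟨k3, k4⟩
  omega

theorem ncj (q : ℕ) (hq : q.Prime) (h41 : 41 ≤ q) : NCj1 q (Phi q 1 1) (Phi q 1 3) := by
  intro h h1 h2 H
  have hodd := n2_odd hq h41
  have e1 := H 1 le_rfl (by omega)
  rw [mem11, mem13 q hq (by omega), one_mul, Nat.mod_eq_of_lt h2] at e1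
  have h3 : 2 * h < q := by
    by_contra hcon
    have := e1.2 ⟨h2, by omega⟩
    omega
  by_cases h4 : 3 ≤ h
  · obtain ⟨k, k1, k2, k3, k4⟩ := n2_mul 3 h4 (by omega) h3
    have e2 := H k k1 (by omega)
    rw [mem11, mem13 q hq (by omega), Nat.mod_eq_of_lt k3] at e2
    have := e2.2 ⟨k3, k4⟩
    omega
  by_cases h5 : h = 1
  · have e2 := H (q / 4 + 1) (by omega) (by omega)
    rw [mem11, mem13 q hq (by omega), h5, mul_one, Nat.mod_eq_of_lt (by omega)] at e2
    have := e2.1 (Or.inl ⟨by omega, by omega⟩)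
    omega
  · have h6 : h = 2 := by omega
    have h7 : (q / 3 + 1) * 2 < q := by omega
    have e2 := H (q / 3 + 1) (by omega) (by omega)
    rw [mem11, mem13 q hq (by omega), h6, Nat.mod_eq_of_lt h7] at e2
    have := e2.2 ⟨h7, by omega⟩
    omega

/-- the complement of `Phi q 1 3` -/
def inS (q r : ℕ) : Prop :=
  1 ≤ r ∧ (4 * r < q ∨ (q < 3 * r ∧ 2 * r < q) ∨ (2 * q < 3 * r ∧ 4 * r < 3 * q))

theorem not_mem13 (q : ℕ) (hq : q.Prime) (h5 : 5 ≤ q) (u : ℕ) (h1 : 1 ≤ u) (h2 : u < q) :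
    u ∉ Phi q 1 3 ↔ inS q u := by
  have q2 : q % 2 ≠ 0 := fun h => by
    have := (Nat.prime_dvd_prime_iff_eq Nat.prime_two hq).1 (Nat.dvd_of_mod_eq_zero h)
    omega
  have q3 : q % 3 ≠ 0 := fun h => by
    have := (Nat.prime_dvd_prime_iff_eq Nat.prime_three hq).1 (Nat.dvd_of_mod_eq_zero h)
    omega
  rw [mem13 q hq h5, inS]
  omega

theorem inS_small (q h : ℕ) (hq : q.Prime) (h41 : 41 ≤ q) (h2 : 2 ≤ h) (h4 : 4 * h < q)
    (hS : ∀ k m r, inS q k → k * h = m * q + r → r < q → inS q r) : False := by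
  have q2 : q % 2 ≠ 0 := fun h => by
    have := (Nat.prime_dvd_prime_iff_eq Nat.prime_two hq).1 (Nat.dvd_of_mod_eq_zero h)
    omega
  have q3 : q % 3 ≠ 0 := fun h => by
    have := (Nat.prime_dvd_prime_iff_eq Nat.prime_three hq).1 (Nat.dvd_of_mod_eq_zero h)
    omega
  unfold inS at hS
  rcases le_or_gt (12 * h) q with h12 | h12
  · have hd := Nat.div_add_mod q (4 * h)
    have hm := Nat.mod_lt q (show 0 < 4 * h by omega)
    have hle : q / (4 * h) ≤ q / 8 := Nat.div_le_div_left (by omega) (by norm_num)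
    generalize q / (4 * h) = k at hd hle
    generalize q % (4 * h) = r at hd hm
    have e1 : 4 * h * k = 4 * (k * h) := by ring
    rw [e1] at hd
    have e2 : (k + 1) * h = k * h + h := by ring
    have := hS (k + 1) 0 (k * h + h) ⟨by omega, Or.inl (by omega)⟩ (by omega) (by omega)
    omega
  · rcases lt_or_ge (8 * h) q with h8 | h8
    · have a3 := hS 3 0 (3 * h) ⟨by omega, Or.inl (by omega)⟩ (by omega) (by omega)
      have a5 := hS 5 0 (5 * h) ⟨by omega, Or.inl (by omega)⟩ (by omega) (by omega)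
      omega
    · rcases lt_or_ge (6 * h) q with h6 | h6
      · have a2 := hS 2 0 (2 * h) ⟨by omega, Or.inl (by omega)⟩ (by omega) (by omega)
        omega
      · have a3 := hS 3 0 (3 * h) ⟨by omega, Or.inl (by omega)⟩ (by omega) (by omega)
        have a4 := hS 4 0 (4 * h) ⟨by omega, Or.inl (by omega)⟩ (by omega) (by omega)
        omega

theorem inS_mid (q h : ℕ) (hq : q.Prime) (h41 : 41 ≤ q) (h3 : q < 3 * h) (h2 : 2 * h < q)
    (hS : ∀ k m r, inS q k → k * h = m * q + r → r < q → inS q r) : 3 * h = q + 1 := by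
  unfold inS at hS
  have a2 := hS 2 0 (2 * h) ⟨by omega, Or.inl (by omega)⟩ (by omega) (by omega)
  have a5 := hS 5 1 (5 * h - q) ⟨by omega, Or.inl (by omega)⟩ (by omega) (by omega)
  have h20 : 20 * h < 7 * q := by omega
  obtain ⟨e, he⟩ : ∃ e, 3 * h = q + e := ⟨3 * h - q, by omega⟩
  have he1 : 1 ≤ e := by omega
  have he20 : 20 * e < q := by omega
  have ind : ∀ i, 4 * (3 * i + 2) < q → 4 * (3 * i + 2) * e < q := by
    intro i
    induction i with
    | zero => intro _; omega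
    | succ i ih =>
      intro hi
      have h1 := ih (by omega)
      have hA : 3 * (i * h) = i * q + i * e := by
        have : i * (3 * h) = i * (q + e) := by rw [he]
        linarith
      have h1' : 12 * (i * e) + 8 * e < q := by
        have : 4 * (3 * i + 2) * e = 12 * (i * e) + 8 * e := by ring
        omega
      have hr := hS (3 * (i + 1) + 2) (i + 1) (i * e + 5 * h - q) ⟨by omega, Or.inl (by omega)⟩
        (by
          have e1 : (3 * (i + 1) + 2) * h = 3 * (i * h) + 5 * h := by ring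
          have e2 : (i + 1) * q = i * q + q := by ring
          rw [e1, e2]
          omega) (by omega)
      have e3 : 4 * (3 * (i + 1) + 2) * e = 12 * (i * e) + 20 * e := by ring
      rw [e3]
      omega
  by_contra hne
  have he2 : 2 ≤ e := by omega
  have h4 := ind ((q - 9) / 12) (by omega)
  have h5 : 4 * (3 * ((q - 9) / 12) + 2) * 2 ≤ 4 * (3 * ((q - 9) / 12) + 2) * e :=
    Nat.mul_le_mul_left _ he2
  omega

theorem inS_big (q h : ℕ) (hq : q.Prime) (h41 : 41 ≤ q) (h3 : 2 * q < 3 * h) (h2 : 4 * h < 3 * q)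
    (hS : ∀ k m r, inS q k → k * h = m * q + r → r < q → inS q r) : 3 * h = 2 * q + 1 := by
  unfold inS at hS
  have a4 := hS 4 2 (4 * h - 2 * q) ⟨by omega, Or.inl (by omega)⟩ (by omega) (by omega)
  have h20 : 16 * h < 11 * q := by omega
  obtain ⟨e, he⟩ : ∃ e, 3 * h = 2 * q + e := ⟨3 * h - 2 * q, by omega⟩
  have he1 : 1 ≤ e := by omega
  have he20 : 16 * e < q := by omega
  have ind : ∀ i, 4 * (3 * i + 1) < q → 4 * (3 * i + 1) * e < q := by
    intro i
    induction i with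
    | zero => intro _; omega
    | succ i ih =>
      intro hi
      have h1 := ih (by omega)
      have hA : 3 * (i * h) = 2 * (i * q) + i * e := by
        have : i * (3 * h) = i * (2 * q + e) := by rw [he]
        linarith
      have h1' : 12 * (i * e) + 4 * e < q := by
        have : 4 * (3 * i + 1) * e = 12 * (i * e) + 4 * e := by ring
        omega
      have hr := hS (3 * (i + 1) + 1) (2 * (i + 1)) (i * e + 4 * h - 2 * q)
        ⟨by omega, Or.inl (by omega)⟩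
        (by
          have e1 : (3 * (i + 1) + 1) * h = 3 * (i * h) + 4 * h := by ring
          have e2 : 2 * (i + 1) * q = 2 * (i * q) + 2 * q := by ring
          rw [e1, e2]
          omega) (by omega)
      have e3 : 4 * (3 * (i + 1) + 1) * e = 12 * (i * e) + 16 * e := by ring
      rw [e3]
      omega
  by_contra hne
  have he2 : 2 ≤ e := by omega
  have h4 := ind ((q - 5) / 12) (by omega)
  have h5 : 4 * (3 * ((q - 5) / 12) + 1) * 2 ≤ 4 * (3 * ((q - 5) / 12) + 1) * e :=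
    Nat.mul_le_mul_left _ he2
  omega

theorem prm13 (q : ℕ) (hq : q.Prime) (h41 : 41 ≤ q) : Prm1 q (Phi q 1 3) := by
  intro h hh1 hh2 hst
  have hmod : ∀ k m r : ℕ, k * h = m * q + r → r < q → (k * h) % q = r := by
    intro k m r hk hr
    rw [hk, Nat.mul_add_mod', Nat.mod_eq_of_lt hr]
  have hS : ∀ k m r, inS q k → k * h = m * q + r → r < q → inS q r := by
    intro k m r hk hkr hr
    have hk1 : 1 ≤ k := hk.1
    have hk2 : k < q := by
      have := hk.2
      omega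
    have hm := hmod k m r hkr hr
    have hr1 : 1 ≤ r := by
      by_contra hcon
      have hr0 : r = 0 := by omega
      rw [hr0] at hm
      rcases hq.dvd_mul.1 (Nat.dvd_of_mod_eq_zero hm) with h' | h'
      · exact absurd (Nat.le_of_dvd hk1 h') (by omega)
      · exact absurd (Nat.le_of_dvd hh1 h') (by omega)
    rw [← not_mem13 q hq (by omega) k hk1 hk2, hst k hk1 hk2, hm] at hk
    exact (not_mem13 q hq (by omega) r hr1 hr).1 hk
  have hh : inS q h := hS 1 0 h ⟨le_rfl, Or.inl (by omega)⟩ (by omega) hh2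
  have hfin : ∀ c : ℕ, 3 * h = c * q + 1 → False := by
    intro c hc
    have hm1 : q < 6 * (q / 6 + 1) := by omega
    have hm2 : 9 * (q / 6 + 1) < 2 * q := by omega
    have h1 : 3 * (q / 6 + 1) ∈ Phi q 1 3 := by
      rw [mem13 q hq (by omega)]
      omega
    rw [hst _ (by omega) (by omega)] at h1
    have h2 : 3 * (q / 6 + 1) * h = (q / 6 + 1) * c * q + (q / 6 + 1) := by
      calc 3 * (q / 6 + 1) * h = (q / 6 + 1) * (3 * h) := by ring
        _ = (q / 6 + 1) * c * q + (q / 6 + 1) := by rw [hc]; ring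
    rw [hmod _ _ _ h2 (by omega)] at h1
    exact (not_mem13 q hq (by omega) _ (by omega) (by omega)).2 ⟨by omega, Or.inl (by omega)⟩ h1
  by_contra hne
  rcases hh.2 with h4 | h4 | h4
  · exact inS_small q h hq h41 (by omega) h4 hS
  · exact hfin 1 (by have := inS_mid q h hq h41 h4.1 h4.2 hS; omega)
  · exact hfin 2 (by have := inS_big q h hq h41 h4.1 h4.2 hS; omega)

theorem prm_of (q : ℕ) (hq : q.Prime) (s : Finset ℕ) (h : Prm1 q s) : Prm q s := by
  intro k hk hs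
  exact h k hk.1 hk.2.1 fun u h1 h2 => hs u ((un_iff hq u).2 ⟨h1, h2⟩)

theorem ncj_of (q : ℕ) (hq : q.Prime) (s t : Finset ℕ) (h : NCj1 q s t) : NCj q s t := by
  intro k hk hs
  exact h k hk.1 hk.2.1 fun u h1 h2 => hs u ((un_iff hq u).2 ⟨h1, h2⟩)

section gen

open Polynomial Pool.Agent.Helper44.LT

private theorem n10_congr (q : ℕ) (s t : Finset ℕ) (hs : CMt q s) (ht : CMt q t)
    (ρ1 : s → ℂ) (ρ2 : t → ℂ) {P P' Q Q' : ℚ[X]}
    (hP : ∀ u, Un q u → eu q u P = eu q u P')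
    (hQ : ∀ u, Un q u → eu q u Q = eu q u Q') :
    ptQ q s t ρ1 ρ2 P Q = ptQ q s t ρ1 ρ2 P' Q' := by
  funext u
  rcases u with u | u
  · have h := hs.rng u u.2
    simp only [ptQ, Sum.elim_inl, hP u h]
  · have h := ht.rng u u.2
    simp only [ptQ, Sum.elim_inr, hQ u h]

/-- all rational polynomials act through `b` -/
private theorem n10_comp (q : ℕ) (s t : Finset ℕ) (ρ1 : s → ℂ) (ρ2 : t → ℂ)
    (H : Submodule ℂ (s ⊕ t → ℂ)) (b1 b2 : ℚ[X])
    (hb : ∀ P Q : ℚ[X], ptQ q s t ρ1 ρ2 P Q ∈ H → ptQ q s t ρ1 ρ2 (b1 * P) (b2 * Q) ∈ H)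
    (G P Q : ℚ[X]) (h : ptQ q s t ρ1 ρ2 P Q ∈ H) :
    ptQ q s t ρ1 ρ2 (G.comp b1 * P) (G.comp b2 * Q) ∈ H := by
  induction G using Polynomial.induction_on generalizing P Q with
  | C a =>
    rw [C_comp, C_comp]
    have : ptQ q s t ρ1 ρ2 (C a * P) (C a * Q) = (a : ℂ) • ptQ q s t ρ1 ρ2 P Q := by
      funext u
      rcases u with u | u
      · simp only [ptQ, Sum.elim_inl, Pi.smul_apply, smul_eq_mul, eu_mul, eu_C]
        ring
      · simp only [ptQ, Sum.elim_inr, Pi.smul_apply, smul_eq_mul, eu_mul, eu_C]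
        ring
    rw [this]
    exact H.smul_mem _ h
  | add p r hp hr =>
    have : ptQ q s t ρ1 ρ2 ((p + r).comp b1 * P) ((p + r).comp b2 * Q) =
        ptQ q s t ρ1 ρ2 (p.comp b1 * P) (p.comp b2 * Q) +
          ptQ q s t ρ1 ρ2 (r.comp b1 * P) (r.comp b2 * Q) := by
      funext u
      rcases u with u | u
      · simp only [ptQ, Sum.elim_inl, Pi.add_apply, eu_mul, add_comp, eu_add]
        ring
      · simp only [ptQ, Sum.elim_inr, Pi.add_apply, eu_mul, add_comp, eu_add]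
        ring
    rw [this]
    exact H.add_mem (hp P Q h) (hr P Q h)
  | monomial n a ih =>
    have h1 := ih (b1 * P) (b2 * Q) (hb P Q h)
    have e1 : (C a * X ^ (n + 1)).comp b1 * P = (C a * X ^ n).comp b1 * (b1 * P) := by
      simp only [mul_comp, C_comp, pow_comp, X_comp]
      ring
    have e2 : (C a * X ^ (n + 1)).comp b2 * Q = (C a * X ^ n).comp b2 * (b2 * Q) := by
      simp only [mul_comp, C_comp, pow_comp, X_comp]
      ring
    rw [e1, e2]
    exact h1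

/-- real polynomials are real combinations of rational ones -/
private theorem n10_real (q : ℕ) (s t : Finset ℕ) (ρ1 : s → ℂ) (ρ2 : t → ℂ)
    (H : Submodule ℂ (s ⊕ t → ℂ)) (P : ℝ[X])
    (h : ∀ R : ℚ[X], ptQ q s t ρ1 ρ2 R 0 ∈ H) : ptR q s t ρ1 ρ2 P 0 ∈ H := by
  have hz : ∀ u, er q u (0 : ℝ[X]) = 0 := fun u => er_zero q u
  induction P using Polynomial.induction_on' with
  | add p r hp hr =>
    have : ptR q s t ρ1 ρ2 (p + r) 0 = ptR q s t ρ1 ρ2 p 0 + ptR q s t ρ1 ρ2 r 0 := by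
      funext u
      rcases u with u | u
      · simp only [ptR, Sum.elim_inl, Pi.add_apply, er_add]
        ring
      · simp only [ptR, Sum.elim_inr, Pi.add_apply, hz]
        ring
    rw [this]
    exact H.add_mem hp hr
  | monomial n a =>
    have : ptR q s t ρ1 ρ2 (monomial n a) 0 = (a : ℂ) • ptQ q s t ρ1 ρ2 (X ^ n) 0 := by
      have e : (monomial n a : ℝ[X]) = C a * up (X ^ n) := by
        rw [up, Polynomial.map_pow, map_X, C_mul_X_pow_eq_monomial]
      funext u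
      rcases u with u | u
      · simp only [ptR, ptQ, Sum.elim_inl, Pi.smul_apply, smul_eq_mul, e, er_mul, er_C, er_up]
        ring
      · simp only [ptR, ptQ, Sum.elim_inr, Pi.smul_apply, smul_eq_mul, hz, eu_zero]
        ring
    rw [this]
    exact H.smul_mem _ (h _)

private theorem n10_real' (q : ℕ) (s t : Finset ℕ) (ρ1 : s → ℂ) (ρ2 : t → ℂ)
    (H : Submodule ℂ (s ⊕ t → ℂ)) (P : ℝ[X])
    (h : ∀ R : ℚ[X], ptQ q s t ρ1 ρ2 0 R ∈ H) : ptR q s t ρ1 ρ2 0 P ∈ H := by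
  have hz : ∀ u, er q u (0 : ℝ[X]) = 0 := fun u => er_zero q u
  induction P using Polynomial.induction_on' with
  | add p r hp hr =>
    have : ptR q s t ρ1 ρ2 0 (p + r) = ptR q s t ρ1 ρ2 0 p + ptR q s t ρ1 ρ2 0 r := by
      funext u
      rcases u with u | u
      · simp only [ptR, Sum.elim_inl, Pi.add_apply, hz]
        ring
      · simp only [ptR, Sum.elim_inr, Pi.add_apply, er_add]
        ring
    rw [this]
    exact H.add_mem hp hr
  | monomial n a =>
    have : ptR q s t ρ1 ρ2 0 (monomial n a) = (a : ℂ) • ptQ q s t ρ1 ρ2 0 (X ^ n) := by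
      have e : (monomial n a : ℝ[X]) = C a * up (X ^ n) := by
        rw [up, Polynomial.map_pow, map_X, C_mul_X_pow_eq_monomial]
      funext u
      rcases u with u | u
      · simp only [ptR, ptQ, Sum.elim_inl, Pi.smul_apply, smul_eq_mul, hz, eu_zero]
        ring
      · simp only [ptR, ptQ, Sum.elim_inr, Pi.smul_apply, smul_eq_mul, e, er_mul, er_C, er_up]
        ring
    rw [this]
    exact H.smul_mem _ (h _)

theorem subtori_gen (q : ℕ) (hq : 3 ≤ q) (s t : Finset ℕ) (hs : CMt q s) (ht : CMt q t)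
    (ps : Prm q s) (pt' : Prm q t) (hn : NCj q s t)
    (ρ1 : s → ℂ) (ρ2 : t → ℂ) (h1 : ∀ u, ρ1 u ≠ 0) (h2 : ∀ u, ρ2 u ≠ 0)
    (H : Submodule ℂ (s ⊕ t → ℂ)) (hH : H ≠ ⊥) (hr : RatH q s t ρ1 ρ2 H) :
    (∀ x : s ⊕ t → ℂ, (∀ v, x (Sum.inr v) = 0) → x ∈ H) ∨
      (∀ x : s ⊕ t → ℂ, (∀ v, x (Sum.inl v) = 0) → x ∈ H) := by
  classical
  obtain ⟨b1, b2, hb1, hb2, hb⟩ := exists_b q hq s t hs ht ρ1 ρ2 h1 h2 H hr
  have hi1 : ∀ u v, Un q u → Un q v → eu q u b1 = eu q v b1 → u = v :=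
    fun u v hu hv h => b_inj q hq s hs ps b1 hb1 u v hu hv h
  have hi2 : ∀ u v, Un q u → Un q v → eu q u b2 = eu q v b2 → u = v :=
    fun u v hu hv h => b_inj q hq t ht pt' b2 hb2 u v hu hv h
  obtain ⟨G, hG⟩ := sep q hq b1 b2 hi1
    (fun h hh => b_ncj q hq s t hs ht hn b1 b2 hb1 hb2 h hh)
  have hcomp := n10_comp q s t ρ1 ρ2 H b1 b2 hb
  have hq1 : Un q 1 := Un.one q hq
  -- a nonzero rational point of `H`
  have hne : ∃ P Q : ℚ[X], ptQ q s t ρ1 ρ2 P Q ∈ H ∧ ptQ q s t ρ1 ρ2 P Q ≠ 0 := by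
    by_contra hcon
    push Not at hcon
    apply hH
    rw [eq_bot_iff]
    intro x hx
    have hx' := hr x hx
    have hsub : Submodule.span ℝ {y : s ⊕ t → ℂ | y ∈ H ∧ ∃ P Q : ℚ[X],
        y = ptQ q s t ρ1 ρ2 P Q} ≤ ⊥ := by
      rw [Submodule.span_le]
      rintro y ⟨hy, P, Q, rfl⟩
      exact hcon P Q hy
    have := hsub hx'
    rw [Submodule.mem_bot] at this ⊢
    exact this
  obtain ⟨P, Q, hPQ, hPQ0⟩ := hne
  have hcase : eu q 1 P ≠ 0 ∨ eu q 1 Q ≠ 0 := by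
    by_contra hcon
    push Not at hcon
    apply hPQ0
    funext u
    rcases u with u | u
    · have h := hs.rng u u.2
      simp only [ptQ, Sum.elim_inl, Pi.zero_apply,
        ratl q hq P 1 u hq1 h hcon.1, mul_zero]
    · have h := ht.rng u u.2
      simp only [ptQ, Sum.elim_inr, Pi.zero_apply,
        ratl q hq Q 1 u hq1 h hcon.2, mul_zero]
  rcases hcase with hP | hQ
  · left
    have hP0 : ptQ q s t ρ1 ρ2 P 0 ∈ H := by
      have h := hcomp G P Q hPQ
      rw [n10_congr q s t hs ht ρ1 ρ2 (P' := P) (Q' := 0)] at h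
      · exact h
      · intro u hu
        rw [eu_mul, (hG u hu).1, one_mul]
      · intro u hu
        rw [eu_mul, (hG u hu).2, zero_mul, eu_zero]
    have hall : ∀ R : ℚ[X], ptQ q s t ρ1 ρ2 R 0 ∈ H := by
      intro R
      obtain ⟨G', hG'⟩ := gen q hq b1 hi1 P R hP
      have h := hcomp G' P 0 hP0
      rw [n10_congr q s t hs ht ρ1 ρ2 (P' := R) (Q' := 0)] at h
      · exact h
      · exact hG'
      · intro u _
        rw [mul_zero]
    intro x hx
    obtain ⟨R, hR⟩ := surj q hq s hs (fun u => if hu : u ∈ s then x (Sum.inl ⟨u, hu⟩) / ρ1 ⟨u, hu⟩ else 0)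
    have h := n10_real q s t ρ1 ρ2 H R hall
    have e : ptR q s t ρ1 ρ2 R 0 = x := by
      funext u
      rcases u with u | u
      · simp only [ptR, Sum.elim_inl]
        rw [hR u u.2, dif_pos u.2, mul_div_cancel₀ _ (h1 _)]
      · simp only [ptR, Sum.elim_inr]
        rw [er_zero, mul_zero, hx u]
    rwa [e] at h
  · right
    have hQ0 : ptQ q s t ρ1 ρ2 0 Q ∈ H := by
      have h := hcomp (1 - G) P Q hPQ
      rw [n10_congr q s t hs ht ρ1 ρ2 (P' := 0) (Q' := Q)] at h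
      · exact h
      · intro u hu
        rw [eu_mul, sub_comp, one_comp, eu_sub, eu_one, (hG u hu).1, sub_self, zero_mul,
          eu_zero]
      · intro u hu
        rw [eu_mul, sub_comp, one_comp, eu_sub, eu_one, (hG u hu).2, sub_zero, one_mul]
    have hall : ∀ R : ℚ[X], ptQ q s t ρ1 ρ2 0 R ∈ H := by
      intro R
      obtain ⟨G', hG'⟩ := gen q hq b2 hi2 Q R hQ
      have h := hcomp G' 0 Q hQ0
      rw [n10_congr q s t hs ht ρ1 ρ2 (P' := 0) (Q' := R)] at h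
      · exact h
      · intro u _
        rw [mul_zero]
      · exact hG'
    intro x hx
    obtain ⟨R, hR⟩ := surj q hq t ht (fun u => if hu : u ∈ t then x (Sum.inr ⟨u, hu⟩) / ρ2 ⟨u, hu⟩ else 0)
    have h := n10_real' q s t ρ1 ρ2 H R hall
    have e : ptR q s t ρ1 ρ2 0 R = x := by
      funext u
      rcases u with u | u
      · simp only [ptR, Sum.elim_inl]
        rw [er_zero, mul_zero, hx u]
      · simp only [ptR, Sum.elim_inr]
        rw [hR u u.2, dif_pos u.2, mul_div_cancel₀ _ (h2 _)]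
    rwa [e] at h

end gen

theorem subtori (q : ℕ) (hq : q.Prime) (h : 41 ≤ q) (ρ1 : Phi q 1 1 → ℂ) (ρ2 : Phi q 1 3 → ℂ)
    (h1 : ∀ u, ρ1 u ≠ 0) (h2 : ∀ u, ρ2 u ≠ 0)
    (H : Submodule ℂ (Phi q 1 1 ⊕ Phi q 1 3 → ℂ)) (hH : H ≠ ⊥)
    (hr : ∀ x ∈ H, x ∈ Submodule.span ℝ {y : Phi q 1 1 ⊕ Phi q 1 3 → ℂ | y ∈ H ∧
      ∃ P Q : Polynomial ℤ, y = Sum.elim (fun u => ρ1 u * pt q _ P u) (fun u => ρ2 u * pt q _ Q u)}) :
    (∀ x : Phi q 1 1 ⊕ Phi q 1 3 → ℂ, (∀ v, x (Sum.inr v) = 0) → x ∈ H) ∨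
      (∀ x : Phi q 1 1 ⊕ Phi q 1 3 → ℂ, (∀ v, x (Sum.inl v) = 0) → x ∈ H) := by
  refine subtori_gen q (by omega) _ _ (cmt11 q hq (by omega)) (cmt13 q hq (by omega))
    (prm_of q hq _ (prm11 q hq h)) (prm_of q hq _ (prm13 q hq h))
    (ncj_of q hq _ _ (ncj q hq h)) ρ1 ρ2 h1 h2 H hH fun x hx => ?_
  refine Submodule.span_mono ?_ (hr x hx)
  rintro y ⟨hy, P, Q, rfl⟩
  refine ⟨hy, P.map (algebraMap ℤ ℚ), Q.map (algebraMap ℤ ℚ), ?_⟩
  funext u
  rcases u with u | u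
  · simp only [Pool.Agent.Helper44.LT.ptQ, Sum.elim_inl, pt, Pool.Agent.Helper44.LT.eu,
      Polynomial.aeval_map_algebraMap]
  · simp only [Pool.Agent.Helper44.LT.ptQ, Sum.elim_inr, pt, Pool.Agent.Helper44.LT.eu,
      Polynomial.aeval_map_algebraMap]

end Pool.Agent.Helper32.LT
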