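import Pool.Agent.Helper44.LT.N1

/-!
PROJECT LT, BLOCK N, cardinalities for all levels `q` prime to `6` (version 2).
-/

set_option autoImplicit false

namespace Pool.Agent.Helper32.LT2

open Finset Pool.Agent.Helper44.LT

/-- `V = C^Psi` -/
def PsiU (q : ℕ) : Finset ℕ := PU q 1 1 ∪ PU q 1 3

/-- number of units `u` with `q/4 < u < q/3` -/
def rr (q : ℕ) : ℕ :=
  ((Icc 1 (q - 1)).filter fun u => Nat.Coprime u q ∧ q < 4 * u ∧ 3 * u < q).card

theorem mem_PU (q a b u : ℕ) :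
    u ∈ PU q a b ↔ Un q u ∧ q < (u * a) % q + (u * b) % q := by
  rw [PU, mem_filter, mem_filter, mem_Icc, Un]
  constructor
  · rintro ⟨⟨⟨h1, h2⟩, h3⟩, h4⟩
    exact ⟨⟨h1, by omega, h4⟩, h3⟩
  · rintro ⟨⟨h1, h2, h4⟩, h3⟩
    exact ⟨⟨⟨h1, by omega⟩, h3⟩, h4⟩

private theorem v2_pos (q v : ℕ) (h3 : 3 ≤ q) (hv : Nat.Coprime v q) : 0 < v % q := by
  rw [Nat.pos_iff_ne_zero]
  intro h
  have h1 : q ∣ v := Nat.dvd_of_mod_eq_zero h
  have h2 : q ∣ Nat.gcd v q := Nat.dvd_gcd h1 dvd_rfl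
  rw [Nat.Coprime] at hv
  rw [hv] at h2
  have := Nat.le_of_dvd one_pos h2
  omega

private theorem v2_sub (q a u : ℕ) (h3 : 3 ≤ q) (ha : Nat.Coprime a q) (hu : Un q u) :
    0 < (u * a) % q ∧ (u * a) % q < q ∧ ((q - u) * a) % q + (u * a) % q = q := by
  have hA := v2_pos q (u * a) h3 (hu.2.2.mul_left ha)
  have hA2 : (u * a) % q < q := Nat.mod_lt _ (by omega)
  have hX2 : ((q - u) * a) % q < q := Nat.mod_lt _ (by omega)
  refine ⟨hA, hA2, ?_⟩
  have h3' : (((q - u) * a) % q + (u * a) % q) % q = 0 := by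
    rw [← Nat.add_mod, ← add_mul, Nat.sub_add_cancel hu.2.1.le, Nat.mul_mod_right]
  obtain ⟨c, hc⟩ := Nat.dvd_of_mod_eq_zero h3'
  have hc1 : c < 2 := by
    by_contra h
    have : q * 2 ≤ q * c := Nat.mul_le_mul_left q (by omega)
    omega
  have hc0 : c ≠ 0 := by
    rintro rfl
    omega
  have : c = 1 := by omega
  rw [this, mul_one] at hc
  exact hc

private theorem v2_un (q u : ℕ) (h3 : 3 ≤ q) (hu : Un q u) : Un q (q - u) := by
  obtain ⟨h1, h2, h4⟩ := hu
  refine ⟨by omega, by omega, ?_⟩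
  exact (Nat.coprime_self_sub_left h2.le).2 h4

theorem mem_Phi_sub (q a b : ℕ) (h3 : 3 ≤ q) (ha : Nat.Coprime a q) (hb : Nat.Coprime b q)
    (hab : Nat.Coprime (a + b) q) (u : ℕ) (h1 : 1 ≤ u) (h2 : u < q) (hu : Nat.Coprime u q) :
    u ∈ PU q a b ↔ q - u ∉ PU q a b := by
  have hU : Un q u := ⟨h1, h2, hu⟩
  rw [mem_PU, mem_PU]
  obtain ⟨a1, a2, a3⟩ := v2_sub q a u h3 ha hU
  obtain ⟨b1, b2, b3⟩ := v2_sub q b u h3 hb hU
  have h4 : (u * a) % q + (u * b) % q ≠ q := by
    intro h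
    have h5 : (u * (a + b)) % q = 0 := by
      rw [mul_add, Nat.add_mod, h, Nat.mod_self]
    have h6 := v2_pos q (u * (a + b)) h3 (hu.mul_left hab)
    omega
  have h5 := v2_un q u h3 hU
  simp only [hU, h5, true_and]
  omega

theorem card_Phi (q a b : ℕ) (h3 : 3 ≤ q) (ha : Nat.Coprime a q) (hb : Nat.Coprime b q)
    (hab : Nat.Coprime (a + b) q) : (PU q a b).card = q.totient / 2 := by
  classical
  have htot : ((range q).filter (fun u => Nat.Coprime q u)).card = q.totient := rfl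
  have hU : ∀ u, u ∈ (range q).filter (fun u => Nat.Coprime q u) ↔ Un q u := by
    intro u
    rw [mem_filter, mem_range, Un]
    constructor
    · rintro ⟨h1, h2⟩
      refine ⟨?_, h1, h2.symm⟩
      by_contra h4
      have : u = 0 := by omega
      rw [this, Nat.coprime_zero_right] at h2
      omega
    · rintro ⟨h1, h2, h4⟩
      exact ⟨h2, h4.symm⟩
  have h1 : ((range q).filter (fun u => Nat.Coprime q u)).filter (fun u => u ∈ PU q a b) =
      PU q a b := by
    ext u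
    rw [mem_filter, hU]
    exact ⟨fun h => h.2, fun h => ⟨((mem_PU q a b u).1 h).1, h⟩⟩
  have h2 : (((range q).filter (fun u => Nat.Coprime q u)).filter
      (fun u => u ∉ PU q a b)).card = (PU q a b).card := by
    refine Finset.card_bij' (fun u _ => q - u) (fun u _ => q - u) ?_ ?_ ?_ ?_
    · intro u hu
      rw [mem_filter, hU] at hu
      by_contra h
      exact hu.2 ((mem_Phi_sub q a b h3 ha hb hab u hu.1.1 hu.1.2.1 hu.1.2.2).2 h)
    · intro u hu
      have h := ((mem_PU q a b u).1 hu).1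
      rw [mem_filter, hU]
      exact ⟨v2_un q u h3 h, (mem_Phi_sub q a b h3 ha hb hab u h.1 h.2.1 h.2.2).1 hu⟩
    · intro u hu
      rw [mem_filter, hU] at hu
      have := hu.1.2.1
      show q - (q - u) = u
      omega
    · intro u hu
      have h := ((mem_PU q a b u).1 hu).1.2.1
      show q - (q - u) = u
      omega
  have h4 := Finset.card_filter_add_card_filter_not
    (s := (range q).filter (fun u => Nat.Coprime q u)) (fun u => u ∈ PU q a b)
  rw [h1, h2, htot] at h4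
  omega

theorem card_Psi (q : ℕ) (h6 : Nat.Coprime q 6) (h : 5 ≤ q) :
    (PsiU q).card = q.totient / 2 + rr q := by
  classical
  have h1 : PsiU q = PU q 1 1 ∪
      ((Icc 1 (q - 1)).filter fun u => Nat.Coprime u q ∧ q < 4 * u ∧ 3 * u < q) := by
    ext u
    rw [PsiU, mem_union, mem_union, mem11 q, mem13 q h6 h, mem_filter, mem_Icc, Un]
    constructor
    · rintro (h1 | ⟨⟨h1, h2, h3⟩, h4⟩)
      · exact Or.inl h1
      · rcases h4 with h4 | h4 | h4
        · exact Or.inr ⟨⟨h1, by omega⟩, h3, h4⟩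
        · exact Or.inl ⟨⟨h1, h2, h3⟩, h4.1⟩
        · exact Or.inl ⟨⟨h1, h2, h3⟩, by omega⟩
    · rintro (h1 | ⟨⟨h1, h2⟩, h3, h4⟩)
      · exact Or.inl h1
      · exact Or.inr ⟨⟨h1, by omega, h3⟩, Or.inl h4⟩
  have hd : Disjoint (PU q 1 1)
      ((Icc 1 (q - 1)).filter fun u => Nat.Coprime u q ∧ q < 4 * u ∧ 3 * u < q) := by
    rw [Finset.disjoint_left]
    intro u hu hv
    rw [mem11 q] at hu
    rw [mem_filter] at hv
    omega
  rw [h1, Finset.card_union_of_disjoint hd, rr,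
    card_Phi q 1 1 (by omega) (Nat.coprime_one_left q) (Nat.coprime_one_left q) (cop2 h6)]

/-! ### the sieve -/

private def cnt (S : Finset ℕ) (M : ℕ) : ℕ := ((Icc 1 M).filter fun u => ∀ p ∈ S, ¬ p ∣ u).card

private def cnI (S : Finset ℕ) (M : ℕ) : ℕ :=
  ((Icc 1 M).filter fun u => (∀ p ∈ S, ¬ p ∣ u) ∧ M < 4 * u ∧ 3 * u < M).card

private theorem v2_mul (S : Finset ℕ) (hS : ∀ r ∈ S, r.Prime) (p : ℕ) (hp : p.Prime)
    (hpS : p ∉ S) (v : ℕ) : (∀ r ∈ S, ¬ r ∣ p * v) ↔ ∀ r ∈ S, ¬ r ∣ v := by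
  constructor
  · intro h r hr hd
    exact h r hr (hd.mul_left p)
  · intro h r hr hd
    rcases (Nat.Prime.dvd_mul (hS r hr)).1 hd with h1 | h1
    · rw [(Nat.prime_dvd_prime_iff_eq (hS r hr) hp).1 h1] at hr
      exact hpS hr
    · exact h r hr h1

private theorem cnt_step (S : Finset ℕ) (hS : ∀ r ∈ S, r.Prime) (p : ℕ) (hp : p.Prime)
    (hpS : p ∉ S) (M : ℕ) : cnt (insert p S) (p * M) + cnt S M = cnt S (p * M) := by
  classical
  have h1 := Finset.card_filter_add_card_filter_not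
    (s := (Icc 1 (p * M)).filter fun u => ∀ r ∈ S, ¬ r ∣ u) (fun u => ¬ p ∣ u)
  have h2 : ((Icc 1 (p * M)).filter fun u => ∀ r ∈ S, ¬ r ∣ u).filter (fun u => ¬ p ∣ u) =
      (Icc 1 (p * M)).filter fun u => ∀ r ∈ insert p S, ¬ r ∣ u := by
    ext u
    rw [mem_filter, mem_filter, mem_filter, Finset.forall_mem_insert]
    tauto
  have h3 : (((Icc 1 (p * M)).filter fun u => ∀ r ∈ S, ¬ r ∣ u).filter
      (fun u => ¬ ¬ p ∣ u)).card = cnt S M := by
    symm
    refine Finset.card_bij (fun v _ => p * v) ?_ ?_ ?_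
    · intro v hv
      rw [mem_filter, mem_Icc] at hv
      rw [mem_filter, mem_filter, mem_Icc, not_not, v2_mul S hS p hp hpS]
      refine ⟨⟨⟨Nat.mul_pos hp.pos (by omega), Nat.mul_le_mul_left p hv.1.2⟩, hv.2⟩,
        Dvd.intro _ rfl⟩
    · intro v _ w _ h
      exact Nat.eq_of_mul_eq_mul_left hp.pos h
    · intro u hu
      rw [mem_filter, mem_filter, mem_Icc, not_not] at hu
      obtain ⟨⟨⟨h4, h5⟩, h6⟩, v, rfl⟩ := hu
      rw [v2_mul S hS p hp hpS] at h6
      refine ⟨v, ?_, rfl⟩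
      rw [mem_filter, mem_Icc]
      exact ⟨⟨Nat.pos_of_mul_pos_left h4, Nat.le_of_mul_le_mul_left h5 hp.pos⟩, h6⟩
  rw [h2, h3] at h1
  exact h1

private theorem cnI_step (S : Finset ℕ) (hS : ∀ r ∈ S, r.Prime) (p : ℕ) (hp : p.Prime)
    (hpS : p ∉ S) (M : ℕ) : cnI (insert p S) (p * M) + cnI S M = cnI S (p * M) := by
  classical
  have h1 := Finset.card_filter_add_card_filter_not
    (s := (Icc 1 (p * M)).filter fun u => (∀ r ∈ S, ¬ r ∣ u) ∧ p * M < 4 * u ∧ 3 * u < p * M)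
    (fun u => ¬ p ∣ u)
  have h2 : ((Icc 1 (p * M)).filter fun u =>
      (∀ r ∈ S, ¬ r ∣ u) ∧ p * M < 4 * u ∧ 3 * u < p * M).filter (fun u => ¬ p ∣ u) =
      (Icc 1 (p * M)).filter fun u =>
        (∀ r ∈ insert p S, ¬ r ∣ u) ∧ p * M < 4 * u ∧ 3 * u < p * M := by
    ext u
    rw [mem_filter, mem_filter, mem_filter, Finset.forall_mem_insert]
    tauto
  have h3 : (((Icc 1 (p * M)).filter fun u =>
      (∀ r ∈ S, ¬ r ∣ u) ∧ p * M < 4 * u ∧ 3 * u < p * M).filter
      (fun u => ¬ ¬ p ∣ u)).card = cnI S M := by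
    have e1 : ∀ v : ℕ, 4 * (p * v) = p * (4 * v) := fun v => by ring
    have e2 : ∀ v : ℕ, 3 * (p * v) = p * (3 * v) := fun v => by ring
    symm
    refine Finset.card_bij (fun v _ => p * v) ?_ ?_ ?_
    · intro v hv
      rw [mem_filter, mem_Icc] at hv
      rw [mem_filter, mem_filter, mem_Icc, not_not, v2_mul S hS p hp hpS, e1, e2]
      exact ⟨⟨⟨Nat.mul_pos hp.pos (by omega), Nat.mul_le_mul_left p hv.1.2⟩, hv.2.1,
        Nat.mul_lt_mul_of_pos_left hv.2.2.1 hp.pos, Nat.mul_lt_mul_of_pos_left hv.2.2.2 hp.pos⟩,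
        Dvd.intro _ rfl⟩
    · intro v _ w _ h
      exact Nat.eq_of_mul_eq_mul_left hp.pos h
    · intro u hu
      rw [mem_filter, mem_filter, mem_Icc, not_not] at hu
      obtain ⟨⟨⟨h4, h5⟩, h6, h7, h8⟩, v, rfl⟩ := hu
      rw [v2_mul S hS p hp hpS] at h6
      rw [e1] at h7
      rw [e2] at h8
      refine ⟨v, ?_, rfl⟩
      rw [mem_filter, mem_Icc]
      exact ⟨⟨Nat.pos_of_mul_pos_left h4, Nat.le_of_mul_le_mul_left h5 hp.pos⟩, h6,
        Nat.lt_of_mul_lt_mul_left h7, Nat.lt_of_mul_lt_mul_left h8⟩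
  rw [h2, h3] at h1
  exact h1

private theorem cn_base (M : ℕ) (h2 : M % 2 ≠ 0) (h3 : M % 3 ≠ 0) :
    |12 * (cnI ∅ M : ℤ) - (cnt ∅ M : ℤ)| ≤ 5 := by
  have e1 : cnt ∅ M = M := by
    unfold cnt
    rw [Finset.filter_true_of_mem, Nat.card_Icc]
    · omega
    · intro u _ p hp
      exact absurd hp (Finset.notMem_empty p)
  have e2 : cnI ∅ M = M / 3 - M / 4 := by
    unfold cnI
    have : ((Icc 1 M).filter fun u => (∀ p ∈ (∅ : Finset ℕ), ¬ p ∣ u) ∧ M < 4 * u ∧ 3 * u < M) =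
        Ioc (M / 4) (M / 3) := by
      ext u
      rw [mem_filter, mem_Icc, mem_Ioc]
      constructor
      · rintro ⟨_, _, h5, h6⟩
        omega
      · intro h4
        refine ⟨by omega, ?_, by omega, by omega⟩
        intro p hp
        exact absurd hp (Finset.notMem_empty p)
    rw [this, Nat.card_Ioc]
  rw [e1, e2, abs_le]
  omega

private theorem cn_main (S : Finset ℕ) : ∀ M : ℕ, M % 2 ≠ 0 → M % 3 ≠ 0 →
    (∀ r ∈ S, r.Prime) → (∀ r ∈ S, r ∣ M) →
    |12 * (cnI S M : ℤ) - (cnt S M : ℤ)| ≤ 5 * 2 ^ S.card := by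
  classical
  induction S using Finset.induction_on with
  | empty =>
    intro M h2 h3 _ _
    rw [Finset.card_empty, pow_zero, mul_one]
    exact cn_base M h2 h3
  | insert p S hpS ih =>
    intro M h2 h3 hS hd
    have hp : p.Prime := hS p (mem_insert_self _ _)
    have hS' : ∀ r ∈ S, r.Prime := fun r hr => hS r (mem_insert_of_mem hr)
    obtain ⟨M', rfl⟩ := hd p (mem_insert_self _ _)
    have hd' : ∀ r ∈ S, r ∣ M' := by
      intro r hr
      rcases (Nat.Prime.dvd_mul (hS' r hr)).1 (hd r (mem_insert_of_mem hr)) with h1 | h1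
      · rw [(Nat.prime_dvd_prime_iff_eq (hS' r hr) hp).1 h1] at hr
        exact absurd hr hpS
      · exact h1
    have h2' : M' % 2 ≠ 0 := by
      intro h
      apply h2
      rw [Nat.mul_mod, h, mul_zero, Nat.zero_mod]
    have h3' : M' % 3 ≠ 0 := by
      intro h
      apply h3
      rw [Nat.mul_mod, h, mul_zero, Nat.zero_mod]
    have i1 := ih (p * M') h2 h3 hS' fun r hr => hd r (mem_insert_of_mem hr)
    have i2 := ih M' h2' h3' hS' hd'
    have s1 := cnt_step S hS' p hp hpS M'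
    have s2 := cnI_step S hS' p hp hpS M'
    rw [Finset.card_insert_of_notMem hpS, pow_succ]
    rw [abs_le] at i1 i2 ⊢
    have s1' : (cnt (insert p S) (p * M') : ℤ) + cnt S M' = cnt S (p * M') := by exact_mod_cast s1
    have s2' : (cnI (insert p S) (p * M') : ℤ) + cnI S M' = cnI S (p * M') := by exact_mod_cast s2
    constructor
    · linarith [i1.1, i2.2]
    · linarith [i1.2, i2.1]

private theorem cop_iff (q u : ℕ) (hq : q ≠ 0) :
    Nat.Coprime u q ↔ ∀ p ∈ q.primeFactors, ¬ p ∣ u := by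
  constructor
  · intro h p hp hd
    have hp' := Nat.prime_of_mem_primeFactors hp
    exact Nat.not_coprime_of_dvd_of_dvd hp'.one_lt hd (Nat.dvd_of_mem_primeFactors hp) h
  · intro h
    rw [Nat.coprime_iff_gcd_eq_one]
    by_contra hne
    obtain ⟨p, hp, hd⟩ := Nat.exists_prime_and_dvd hne
    exact h p (Nat.mem_primeFactors.2 ⟨hp, hd.trans (Nat.gcd_dvd_right u q), hq⟩)
      (hd.trans (Nat.gcd_dvd_left u q))

/-- the sieve of Legendre -/
theorem rr_bound (q : ℕ) (h6 : Nat.Coprime q 6) (h : 5 ≤ q) :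
    |12 * (rr q : ℤ) - (q.totient : ℤ)| ≤ 5 * 2 ^ q.primeFactors.card := by
  obtain ⟨h2, h3⟩ := cop6 h6
  have h0 : q ≠ 0 := by omega
  have h1 := cn_main q.primeFactors q h2 h3 (fun r hr => Nat.prime_of_mem_primeFactors hr)
    fun r hr => Nat.dvd_of_mem_primeFactors hr
  have e1 : cnt q.primeFactors q = q.totient := by
    unfold cnt
    rw [Nat.totient_eq_card_coprime]
    congr 1
    ext u
    rw [mem_filter, mem_filter, mem_Icc, mem_range, ← cop_iff q u h0]
    constructor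
    · rintro ⟨⟨h4, h5⟩, h7⟩
      refine ⟨?_, h7.symm⟩
      rcases Nat.lt_or_ge u q with h8 | h8
      · exact h8
      · have : u = q := by omega
        rw [this, Nat.coprime_self] at h7
        omega
    · rintro ⟨h4, h5⟩
      refine ⟨⟨?_, h4.le⟩, h5.symm⟩
      by_contra h8
      have : u = 0 := by omega
      rw [this, Nat.coprime_zero_right] at h5
      omega
  have e2 : cnI q.primeFactors q = rr q := by
    unfold cnI rr
    congr 1
    ext u
    rw [mem_filter, mem_filter, mem_Icc, mem_Icc, ← cop_iff q u h0]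
    constructor
    · rintro ⟨⟨h4, h5⟩, h7⟩
      exact ⟨⟨h4, by omega⟩, h7⟩
    · rintro ⟨⟨h4, h5⟩, h7⟩
      exact ⟨⟨h4, by omega⟩, h7⟩
  rw [e1, e2] at h1
  exact h1

/-! ### the totient against the number of prime factors -/

private noncomputable def c5 (n : ℕ) : ℝ := if 5 ∣ n then 25 / 8 else 1

private noncomputable def c7 (n : ℕ) : ℝ := if 7 ∣ n then 49 / 27 else 1

private theorem c_mul (p : ℕ) (hp : p.Prime) (c : ℝ) (a b : ℕ) (hab : Nat.Coprime a b) :
    (if p ∣ a * b then c else 1) = (if p ∣ a then c else 1) * (if p ∣ b then c else (1 : ℝ)) := by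
  by_cases ha : p ∣ a
  · have hb : ¬ p ∣ b := fun hb => Nat.not_coprime_of_dvd_of_dvd hp.one_lt ha hb hab
    rw [if_pos (ha.mul_right b), if_pos ha, if_neg hb, mul_one]
  · by_cases hb : p ∣ b
    · rw [if_pos (hb.mul_left a), if_neg ha, if_pos hb, one_mul]
    · have hab' : ¬ p ∣ a * b := by
        intro h
        rcases (Nat.Prime.dvd_mul hp).1 h with h1 | h1
        · exact ha h1
        · exact hb h1
      rw [if_neg hab', if_neg ha, if_neg hb, one_mul]

private theorem c5_pos (n : ℕ) : 0 < c5 n := by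
  unfold c5
  split_ifs <;> norm_num

private theorem c7_pos (n : ℕ) : 0 < c7 n := by
  unfold c7
  split_ifs <;> norm_num

private theorem g_prime (p : ℕ) (hp : p.Prime) (h5 : 5 ≤ p) (k : ℕ) (hk : 0 < k) :
    ((p ^ k : ℕ) : ℝ) ^ 2 ≤
      (((p ^ k).totient : ℝ) / 2) ^ 3 * (c5 (p ^ k) * c7 (p ^ k)) := by
  have h1 : (p ^ k).totient = p ^ (k - 1) * (p - 1) := Nat.totient_prime_pow hp hk
  obtain ⟨j, rfl⟩ : ∃ j, k = j + 1 := ⟨k - 1, by omega⟩
  rw [h1, Nat.add_sub_cancel]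
  have hp1 : ((p - 1 : ℕ) : ℝ) = (p : ℝ) - 1 := by
    rw [Nat.cast_sub hp.one_lt.le, Nat.cast_one]
  have hp5 : (5 : ℝ) ≤ p := by exact_mod_cast h5
  have hcc : 8 * (p : ℝ) ^ 2 ≤ ((p : ℝ) - 1) ^ 3 * (c5 (p ^ (j + 1)) * c7 (p ^ (j + 1))) := by
    by_cases e5 : p = 5
    · subst e5
      have a1 : c5 (5 ^ (j + 1)) = 25 / 8 := by
        unfold c5
        rw [if_pos (Dvd.intro_left _ (pow_succ 5 j).symm)]
      have a2 : 1 ≤ c7 (5 ^ (j + 1)) := by
        unfold c7
        split_ifs <;> norm_num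
      rw [a1]
      push_cast
      nlinarith
    · by_cases e7 : p = 7
      · subst e7
        have a1 : c7 (7 ^ (j + 1)) = 49 / 27 := by
          unfold c7
          rw [if_pos (Dvd.intro_left _ (pow_succ 7 j).symm)]
        have a2 : 1 ≤ c5 (7 ^ (j + 1)) := by
          unfold c5
          split_ifs <;> norm_num
        rw [a1]
        push_cast
        nlinarith
      · have h11 : 11 ≤ p := by
          by_contra hlt
          have : p = 6 ∨ p = 8 ∨ p = 9 ∨ p = 10 := by omega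
          rcases this with h | h | h | h <;> rw [h] at hp <;> revert hp <;> norm_num
        have h11' : (11 : ℝ) ≤ p := by exact_mod_cast h11
        have a1 : 1 ≤ c5 (p ^ (j + 1)) := by
          unfold c5
          split_ifs <;> norm_num
        have a2 : 1 ≤ c7 (p ^ (j + 1)) := by
          unfold c7
          split_ifs <;> norm_num
        have a3 : 1 ≤ c5 (p ^ (j + 1)) * c7 (p ^ (j + 1)) := one_le_mul_of_one_le_of_one_le a1 a2
        have a4 : 8 * (p : ℝ) ^ 2 ≤ ((p : ℝ) - 1) ^ 3 := by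
          nlinarith [mul_nonneg (sub_nonneg.2 h11') (sub_nonneg.2 h11')]
        have a5 : 0 ≤ ((p : ℝ) - 1) ^ 3 := pow_nonneg (by linarith) 3
        calc 8 * (p : ℝ) ^ 2 ≤ ((p : ℝ) - 1) ^ 3 * 1 := by rw [mul_one]; exact a4
          _ ≤ _ := mul_le_mul_of_nonneg_left a3 a5
  push_cast
  rw [hp1]
  have hpj : (1 : ℝ) ≤ (p : ℝ) ^ j := one_le_pow₀ (by linarith)
  have h8 : ((p : ℝ) ^ (j + 1)) ^ 2 * 8 ≤ ((p : ℝ) ^ j) ^ 3 * (8 * (p : ℝ) ^ 2) := by
    have e : ((p : ℝ) ^ (j + 1)) ^ 2 * 8 = ((p : ℝ) ^ j) ^ 2 * (8 * (p : ℝ) ^ 2) := by ring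
    rw [e]
    refine mul_le_mul_of_nonneg_right ?_ (by positivity)
    exact pow_le_pow_right₀ hpj (by norm_num)
  have h9 : ((p : ℝ) ^ j) ^ 3 * (8 * (p : ℝ) ^ 2) ≤
      ((p : ℝ) ^ j) ^ 3 * (((p : ℝ) - 1) ^ 3 * (c5 (p ^ (j + 1)) * c7 (p ^ (j + 1)))) :=
    mul_le_mul_of_nonneg_left hcc (by positivity)
  have e2 : ((p : ℝ) ^ j * ((p : ℝ) - 1) / 2) ^ 3 * (c5 (p ^ (j + 1)) * c7 (p ^ (j + 1))) =
      (((p : ℝ) ^ j) ^ 3 * (((p : ℝ) - 1) ^ 3 * (c5 (p ^ (j + 1)) * c7 (p ^ (j + 1))))) / 8 := by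
    ring
  rw [e2, le_div_iff₀ (by norm_num)]
  exact h8.trans h9

private theorem g_main (n : ℕ) : Nat.Coprime n 6 →
    (n : ℝ) ^ 2 ≤ ((n.totient : ℝ) / 2 ^ n.primeFactors.card) ^ 3 * (c5 n * c7 n) := by
  induction n using Nat.recOnPosPrimePosCoprime with
  | zero =>
    intro h
    revert h
    decide
  | one =>
    intro _
    simp [c5, c7]
  | prime_pow p k hp hk =>
    intro h6
    have h5 : 5 ≤ p := by
      have h7 : Nat.Coprime p 6 := Nat.Coprime.coprime_dvd_left (dvd_pow_self p hk.ne') h6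
      obtain ⟨h2, h3⟩ := cop6 h7
      have := hp.two_le
      have h4 : p ≠ 4 := by
        intro h
        rw [h] at h2
        exact h2 rfl
      omega
    rw [Nat.primeFactors_prime_pow hk.ne' hp, Finset.card_singleton, pow_one]
    exact g_prime p hp h5 k hk
  | coprime a b ha hb hab iha ihb =>
    intro h6
    have h6a : Nat.Coprime a 6 := Nat.Coprime.coprime_dvd_left (Dvd.intro _ rfl) h6
    have h6b : Nat.Coprime b 6 := Nat.Coprime.coprime_dvd_left (Dvd.intro_left _ rfl) h6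
    have i1 := iha h6a
    have i2 := ihb h6b
    rw [Nat.totient_mul hab, Nat.Coprime.primeFactors_mul hab,
      Finset.card_union_of_disjoint hab.disjoint_primeFactors, pow_add]
    have e5 : c5 (a * b) = c5 a * c5 b := c_mul 5 (by norm_num) _ a b hab
    have e7 : c7 (a * b) = c7 a * c7 b := c_mul 7 (by norm_num) _ a b hab
    rw [e5, e7]
    push_cast
    have h1 := mul_le_mul i1 i2 (by positivity) (le_trans (by positivity) i1)
    calc ((a : ℝ) * b) ^ 2 = (a : ℝ) ^ 2 * (b : ℝ) ^ 2 := by ring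
      _ ≤ _ := h1
      _ = _ := by
        rw [mul_div_mul_comm]
        ring

/-- `2 ^ ω(q)` is small against `φ(q)` -/
theorem tot_bound (q : ℕ) (h6 : Nat.Coprime q 6) (h : 536 ≤ q) :
    48 + 25 * 2 ^ q.primeFactors.card < q.totient := by
  have hq : (536 : ℝ) ≤ q := by exact_mod_cast h
  have hw : 1 ≤ q.primeFactors.card := by
    rw [Nat.one_le_iff_ne_zero, Ne, Finset.card_eq_zero, Nat.primeFactors_eq_empty]
    omega
  rcases Nat.lt_or_ge 1 q.primeFactors.card with hw1 | hw1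
  · have h1 := g_main q h6
    have hc5 : c5 q ≤ 25 / 8 := by
      unfold c5
      split_ifs <;> norm_num
    have hc7 : c7 q ≤ 49 / 27 := by
      unfold c7
      split_ifs <;> norm_num
    obtain ⟨g, hg⟩ : ∃ g : ℝ, g = (q.totient : ℝ) / 2 ^ q.primeFactors.card := ⟨_, rfl⟩
    rw [← hg] at h1
    have hg0 : 0 ≤ g := by
      rw [hg]
      positivity
    have h2 : c5 q * c7 q ≤ 25 / 8 * (49 / 27) :=
      mul_le_mul hc5 hc7 (c7_pos q).le (by norm_num)
    have h3 : (q : ℝ) ^ 2 ≤ g ^ 3 * (25 / 8 * (49 / 27)) :=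
      h1.trans (mul_le_mul_of_nonneg_left h2 (by positivity))
    have h4 : 37 < g := by
      by_contra hcon
      rw [not_lt] at hcon
      have h5 : g ^ 3 ≤ 37 ^ 3 := pow_le_pow_left₀ hg0 hcon 3
      nlinarith
    have hw2 : (4 : ℝ) ≤ 2 ^ q.primeFactors.card := by
      calc (4 : ℝ) = 2 ^ 2 := by norm_num
        _ ≤ _ := pow_le_pow_right₀ (by norm_num) hw1
    have h7 : 37 * (2 : ℝ) ^ q.primeFactors.card < q.totient := by
      rw [hg, lt_div_iff₀ (by positivity)] at h4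
      exact h4
    have h8 : (48 : ℝ) + 25 * 2 ^ q.primeFactors.card < q.totient := by linarith
    exact_mod_cast h8
  · have hw2 : q.primeFactors.card = 1 := by omega
    obtain ⟨p, k, hp, hk, hpk⟩ := isPrimePow_iff_card_primeFactors_eq_one.2 hw2
    have hp' : p.Prime := hp.nat_prime
    obtain ⟨j, rfl⟩ : ∃ j, k = j + 1 := ⟨k - 1, by omega⟩
    have h7 : Nat.Coprime p 6 := Nat.Coprime.coprime_dvd_left
      (by rw [← hpk]; exact dvd_pow_self p (by omega)) h6
    have h5 : 5 ≤ p := by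
      obtain ⟨h2, h3⟩ := cop6 h7
      have := hp'.two_le
      have h4 : p ≠ 4 := by
        intro h
        rw [h] at h2
        exact h2 rfl
      omega
    have h8 : q.totient = p ^ j * (p - 1) := by
      rw [← hpk, Nat.totient_prime_pow hp' (by omega), Nat.add_sub_cancel]
    have h9 : q = p ^ j * p := by rw [← hpk, pow_succ]
    have h10 : 4 * (p ^ j * p) ≤ 5 * (p ^ j * (p - 1)) := by
      have : 4 * p ≤ 5 * (p - 1) := by omega
      calc 4 * (p ^ j * p) = p ^ j * (4 * p) := by ring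
        _ ≤ p ^ j * (5 * (p - 1)) := Nat.mul_le_mul_left _ this
        _ = 5 * (p ^ j * (p - 1)) := by ring
    rw [← h8, ← h9] at h10
    rw [hw2, pow_one]
    omega

set_option maxRecDepth 100000 in
private theorem small : ∀ q ∈ Icc 116 535, Nat.Coprime q 6 → 5 * rr q + 4 < q.totient / 2 := by
  decide +kernel

theorem ineq_q (q : ℕ) (h6 : Nat.Coprime q 6) (h : 115 < q) : 5 * rr q + 4 < q.totient / 2 := by
  rcases Nat.lt_or_ge q 536 with h1 | h1
  · exact small q (mem_Icc.2 ⟨by omega, by omega⟩) h6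
  · have h2 := tot_bound q h6 h1
    have h3 := rr_bound q h6 (by omega)
    rw [abs_le] at h3
    have h4 : (48 : ℤ) + 25 * 2 ^ q.primeFactors.card < q.totient := by exact_mod_cast h2
    have h5 : Even q.totient := Nat.totient_even (by omega)
    obtain ⟨m, hm⟩ := h5
    have h6' := h3.2
    generalize (2 : ℤ) ^ q.primeFactors.card = w at *
    omega

end Pool.Agent.Helper32.LT2
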